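import Mathlib

/-!
# Even coefficients of functions of the class `Σ` (MP_757d88_an, Q1)

The inequality `|b_n| ≤ 2 / (n + 1)` fails for the even index `n = 3 k - 1`, for every odd `k ≥ 17`.

The function is `f(z) = z (1 - z⁻ᵏ)^(2/k) (1 - w z⁻ᵏ)^(-1/k)` with `w = (1 + i)/2`, that is
`f(z) = g(z⁻ᵏ)^(-1/k)` for the function `g(ζ) = ζ (1 - w ζ) / (1 - ζ)²`, which maps the unit disc
univalently onto the complement of a half-line.
-/

set_option autoImplicit false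

open Complex Metric Set

namespace Pool.Agent.Results.MP_757d88_an.EvenCoefficients

/-- `f` belongs to the class `Σ` and has the Laurent coefficients `b 0, b 1, b 2, …`: it is
holomorphic and injective on `|z| > 1`, where `f(z) = z + ∑_{m ≥ 0} b_m z^(-m)`. -/
def IsSigma (f : ℂ → ℂ) (b : ℕ → ℂ) : Prop :=
  DifferentiableOn ℂ f {z : ℂ | 1 < ‖z‖} ∧ InjOn f {z : ℂ | 1 < ‖z‖} ∧
    ∀ z : ℂ, 1 < ‖z‖ → HasSum (fun m : ℕ => b m / z ^ m) (f z - z)

noncomputable def w : ℂ := (1 + I) / 2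

lemma w_re : w.re = 1 / 2 := by simp [w]
lemma w_im : w.im = 1 / 2 := by simp [w]

lemma norm_w_le : ‖w‖ ≤ 1 := by
  rw [← sq_le_one_iff₀ (norm_nonneg _), ← Complex.normSq_eq_norm_sq, Complex.normSq_apply, w_re, w_im]
  norm_num

noncomputable def Phi (a : ℝ) (x : ℂ) : ℂ :=
  Complex.exp (2 * a * Complex.log (1 - x) - a * Complex.log (1 - w * x))

lemma mem_slit {x : ℂ} (hx : ‖x‖ < 1) : 1 - x ∈ Complex.slitPlane := by
  left
  have := Complex.abs_re_le_norm x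
  have h2 : x.re ≤ ‖x‖ := (le_abs_self _).trans this
  simp only [Complex.sub_re, Complex.one_re]
  linarith

lemma norm_wx {x : ℂ} (hx : ‖x‖ < 1) : ‖w * x‖ < 1 := by
  rw [norm_mul]
  have := norm_nonneg x
  nlinarith [norm_w_le, norm_nonneg w]

lemma mem_slit' {x : ℂ} (hx : ‖x‖ < 1) : 1 - w * x ∈ Complex.slitPlane := mem_slit (norm_wx hx)

lemma ne1 {x : ℂ} (hx : ‖x‖ < 1) : 1 - x ≠ 0 := Complex.slitPlane_ne_zero (mem_slit hx)
lemma ne2 {x : ℂ} (hx : ‖x‖ < 1) : 1 - w * x ≠ 0 := Complex.slitPlane_ne_zero (mem_slit' hx)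

noncomputable def L0 (a : ℝ) (x : ℂ) : ℂ := a * (w / (1 - w * x) - 2 / (1 - x))
noncomputable def L1 (a : ℝ) (x : ℂ) : ℂ := a * (w ^ 2 / (1 - w * x) ^ 2 - 2 / (1 - x) ^ 2)
noncomputable def L2 (a : ℝ) (x : ℂ) : ℂ := a * (2 * w ^ 3 / (1 - w * x) ^ 3 - 4 / (1 - x) ^ 3)

noncomputable def P1 (a : ℝ) (x : ℂ) : ℂ := Phi a x * L0 a x
noncomputable def P2 (a : ℝ) (x : ℂ) : ℂ := Phi a x * (L0 a x ^ 2 + L1 a x)
noncomputable def P3 (a : ℝ) (x : ℂ) : ℂ :=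
  Phi a x * (L0 a x ^ 3 + 3 * L0 a x * L1 a x + L2 a x)

lemma hd1 (x : ℂ) : HasDerivAt (fun x : ℂ => 1 - x) (-1) x := by
  simpa using (hasDerivAt_id x).const_sub 1
lemma hd2 (x : ℂ) : HasDerivAt (fun x : ℂ => 1 - w * x) (-w) x := by
  simpa using ((hasDerivAt_id x).const_mul w).const_sub 1

lemma hPhi (a : ℝ) {x : ℂ} (hx : ‖x‖ < 1) : HasDerivAt (Phi a) (P1 a x) x := by
  have h1 := (hd1 x).clog (mem_slit hx)
  have h2 := (hd2 x).clog (mem_slit' hx)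
  have h3 := ((h1.const_mul (2 * (a : ℂ))).sub (h2.const_mul (a : ℂ))).cexp
  convert! h3 using 1
  unfold P1 L0 Phi
  have := ne1 hx
  have := ne2 hx
  congr 1
  field_simp
  ring

lemma hL0 (a : ℝ) {x : ℂ} (hx : ‖x‖ < 1) : HasDerivAt (L0 a) (L1 a x) x := by
  have e1 := ne1 hx
  have e2 := ne2 hx
  have h1 := (hd1 x).inv e1
  have h2 := (hd2 x).inv e2
  have h3 := ((h2.const_mul w).sub (h1.const_mul 2)).const_mul (a : ℂ)
  have e : L0 a = fun y => (a : ℂ) * (w * (1 - w * y)⁻¹ - 2 * (1 - y)⁻¹) := by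
    funext y; simp only [L0, div_eq_mul_inv]
  rw [e]
  convert! h3 using 1
  unfold L1
  field_simp

lemma hL1 (a : ℝ) {x : ℂ} (hx : ‖x‖ < 1) : HasDerivAt (L1 a) (L2 a x) x := by
  have e1 := ne1 hx
  have e2 := ne2 hx
  have h1 := ((hd1 x).pow 2).inv (pow_ne_zero 2 e1)
  have h2 := ((hd2 x).pow 2).inv (pow_ne_zero 2 e2)
  have h3 := ((h2.const_mul (w ^ 2)).sub (h1.const_mul 2)).const_mul (a : ℂ)
  have e : L1 a = fun y => (a : ℂ) * (w ^ 2 * ((1 - w * y) ^ 2)⁻¹ - 2 * ((1 - y) ^ 2)⁻¹) := by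
    funext y; simp only [L1, div_eq_mul_inv]
  rw [e]
  convert! h3 using 1
  unfold L2
  simp only [Pi.pow_apply]
  push_cast
  field_simp
  ring

lemma hP1 (a : ℝ) {x : ℂ} (hx : ‖x‖ < 1) : HasDerivAt (P1 a) (P2 a x) x := by
  have h := (hPhi a hx).mul (hL0 a hx)
  convert! h using 1
  unfold P2 P1
  ring

lemma hP2 (a : ℝ) {x : ℂ} (hx : ‖x‖ < 1) : HasDerivAt (P2 a) (P3 a x) x := by
  have h := (hPhi a hx).mul (((hL0 a hx).pow 2).add (hL1 a hx))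
  convert! h using 1
  unfold P3 P1
  simp only [Pi.add_apply, Pi.pow_apply]
  push_cast
  ring

lemma it1 (a : ℝ) {x : ℂ} (hx : ‖x‖ < 1) : iteratedDeriv 1 (Phi a) x = P1 a x := by
  rw [iteratedDeriv_one, (hPhi a hx).deriv]

lemma it_succ (a : ℝ) (n : ℕ) (F G : ℂ → ℂ)
    (hF : ∀ x : ℂ, ‖x‖ < 1 → iteratedDeriv n (Phi a) x = F x)
    (hG : ∀ x : ℂ, ‖x‖ < 1 → HasDerivAt F (G x) x) {x : ℂ} (hx : ‖x‖ < 1) :
    iteratedDeriv (n + 1) (Phi a) x = G x := by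
  rw [iteratedDeriv_succ]
  have h : iteratedDeriv n (Phi a) =ᶠ[nhds x] F := by
    filter_upwards [(isOpen_ball (x := (0 : ℂ)) (ε := 1)).mem_nhds (by simpa using hx)] with y hy
    exact hF y (by simpa using hy)
  rw [h.deriv_eq, (hG x hx).deriv]

lemma it3 (a : ℝ) : iteratedDeriv 3 (Phi a) 0 = P3 a 0 := by
  refine it_succ a 2 (P2 a) (P3 a) (fun x hx => ?_) (fun x hx => hP2 a hx) (by simp)
  exact it_succ a 1 (P1 a) (P2 a) (fun x hx => it1 a hx) (fun x hx => hP1 a hx) hx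

lemma Phi_zero (a : ℝ) : Phi a 0 = 1 := by simp [Phi]

lemma P3_zero (a : ℝ) : P3 a 0 =
    (a * (w - 2)) ^ 3 + 3 * (a * (w - 2)) * (a * (w ^ 2 - 2)) + a * (2 * w ^ 3 - 4) := by
  simp [P3, Phi_zero, L0, L1, L2]

lemma P3_re (a : ℝ) : (P3 a 0 / 6).re = -(3 / 4 * a - 11 / 8 * a ^ 2 + 3 / 8 * a ^ 3) := by
  have h : P3 a 0 / 6 = ((-(3 / 4 * a - 11 / 8 * a ^ 2 + 3 / 8 * a ^ 3) : ℝ) : ℂ) +
      ((1 / 12 * a - 7 / 8 * a ^ 2 + 13 / 24 * a ^ 3 : ℝ) : ℂ) * I := by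
    rw [P3_zero]
    unfold w
    push_cast
    have hI : I ^ 2 = -1 := Complex.I_sq
    have hI3 : I ^ 3 = -I := by rw [pow_succ, hI]; ring
    ring_nf
    rw [hI, hI3]
    ring
  rw [h, Complex.add_re, Complex.ofReal_re, Complex.re_ofReal_mul, Complex.I_re, mul_zero, add_zero]

lemma Phi_pow (k : ℕ) (hk : 0 < k) {x : ℂ} (hx : ‖x‖ < 1) :
    Phi (1 / k) x ^ k = (1 - x) ^ 2 / (1 - w * x) := by
  unfold Phi
  rw [← Complex.exp_nat_mul]
  have hk' : (k : ℂ) ≠ 0 := by exact_mod_cast hk.ne'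
  have e : (k : ℂ) * (2 * ((1 / k : ℝ) : ℂ) * Complex.log (1 - x)
      - ((1 / k : ℝ) : ℂ) * Complex.log (1 - w * x)) =
      Complex.log (1 - x) + Complex.log (1 - x) - Complex.log (1 - w * x) := by
    push_cast
    field_simp
    ring
  rw [e, Complex.exp_sub, Complex.exp_add, Complex.exp_log (ne1 hx), Complex.exp_log (ne2 hx)]
  ring

/-- the key inequality for injectivity. -/
lemma key {a b : ℂ} (ha : ‖a‖ < 1) (hb : ‖b‖ < 1) : 1 - w * (a + b) + (2 * w - 1) * (a * b) ≠ 0 := by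
  intro h
  have h1 : 1 - w * a = b * (w - (2 * w - 1) * a) := by linear_combination h
  have h2 : ‖1 - w * a‖ ^ 2 = ‖b‖ ^ 2 * ‖w - (2 * w - 1) * a‖ ^ 2 := by
    rw [h1, norm_mul, mul_pow]
  have h3 : ‖1 - w * a‖ ^ 2 - ‖w - (2 * w - 1) * a‖ ^ 2 = (1 - ‖a‖ ^ 2) / 2 := by
    rw [← Complex.normSq_eq_norm_sq, ← Complex.normSq_eq_norm_sq, ← Complex.normSq_eq_norm_sq,
      Complex.normSq_apply, Complex.normSq_apply, Complex.normSq_apply]
    simp only [Complex.sub_re, Complex.sub_im, Complex.mul_re, Complex.mul_im, Complex.one_re,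
      Complex.one_im, w_re, w_im, Complex.re_ofNat, Complex.im_ofNat]
    ring
  have h4 : ‖b‖ ^ 2 ≤ 1 := by
    have := norm_nonneg b
    nlinarith
  have h5 : ‖a‖ ^ 2 < 1 := by
    have := norm_nonneg a
    nlinarith
  nlinarith [sq_nonneg ‖w - (2 * w - 1) * a‖]

lemma quot_inj {a b : ℂ} (ha : ‖a‖ < 1) (hb : ‖b‖ < 1) (ha0 : a ≠ 0) (hb0 : b ≠ 0)
    (h : a⁻¹ * ((1 - a) ^ 2 / (1 - w * a)) = b⁻¹ * ((1 - b) ^ 2 / (1 - w * b))) : a = b := by
  have e1 := ne2 ha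
  have e2 := ne2 hb
  have h1 : (b - a) * (1 - w * (a + b) + (2 * w - 1) * (a * b)) = 0 := by
    rw [inv_mul_eq_div, inv_mul_eq_div, div_div, div_div,
      div_eq_div_iff (mul_ne_zero e1 ha0) (mul_ne_zero e2 hb0)] at h
    linear_combination h
  rcases mul_eq_zero.mp h1 with h2 | h2
  · exact (sub_eq_zero.mp h2).symm
  · exact absurd h2 (key ha hb)

noncomputable def F (k : ℕ) (z : ℂ) : ℂ := z * Phi (1 / k) (z ^ k)⁻¹

lemma norm_inv_pow {k : ℕ} (hk : 0 < k) {z : ℂ} (hz : 1 < ‖z‖) : ‖(z ^ k)⁻¹‖ < 1 := by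
  rw [norm_inv, norm_pow]
  exact inv_lt_one_of_one_lt₀ (one_lt_pow₀ hz hk.ne')

lemma ne_zero_of {z : ℂ} (hz : 1 < ‖z‖) : z ≠ 0 := by
  rintro rfl
  simp at hz
  linarith

lemma F_pow {k : ℕ} (hk : 0 < k) {z : ℂ} (hz : 1 < ‖z‖) :
    F k z ^ k = ((z ^ k)⁻¹)⁻¹ * ((1 - (z ^ k)⁻¹) ^ 2 / (1 - w * (z ^ k)⁻¹)) := by
  unfold F
  rw [mul_pow, Phi_pow k hk (norm_inv_pow hk hz), inv_inv]

lemma F_inj {k : ℕ} (hk : 0 < k) : InjOn (F k) {z : ℂ | 1 < ‖z‖} := by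
  intro x hx y hy hxy
  have hx0 := pow_ne_zero k (ne_zero_of hx)
  have hy0 := pow_ne_zero k (ne_zero_of hy)
  have h1 : F k x ^ k = F k y ^ k := by rw [hxy]
  rw [F_pow hk hx, F_pow hk hy] at h1
  have h2 := quot_inj (norm_inv_pow hk hx) (norm_inv_pow hk hy) (inv_ne_zero hx0)
    (inv_ne_zero hy0) h1
  unfold F at hxy
  rw [h2] at hxy
  exact mul_right_cancel₀ (Complex.exp_ne_zero _) hxy

lemma Phi_diff (a : ℝ) : DifferentiableOn ℂ (Phi a) (ball 0 1) := fun _ hx =>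
  (hPhi a (by simpa using hx)).differentiableAt.differentiableWithinAt

lemma F_diff {k : ℕ} (hk : 0 < k) : DifferentiableOn ℂ (F k) {z : ℂ | 1 < ‖z‖} := by
  intro z hz
  have h0 := pow_ne_zero k (ne_zero_of hz)
  have h1 : DifferentiableAt ℂ (Phi (1 / k)) (z ^ k)⁻¹ :=
    (hPhi _ (norm_inv_pow hk hz)).differentiableAt
  have h2 : DifferentiableAt ℂ (fun z : ℂ => (z ^ k)⁻¹) z :=
    (differentiableAt_id.pow k).inv h0
  have h3 : DifferentiableAt ℂ (fun z : ℂ => Phi (1 / k) (z ^ k)⁻¹) z :=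
    DifferentiableAt.comp (f := fun z : ℂ => (z ^ k)⁻¹) z h1 h2
  exact (differentiableAt_id.mul h3).differentiableWithinAt

/-- Taylor coefficients of `Phi`. -/
noncomputable def c (a : ℝ) (j : ℕ) : ℂ := iteratedDeriv j (Phi a) 0 / (j.factorial : ℂ)

/-- Laurent coefficients of `F k`. -/
noncomputable def B (k m : ℕ) : ℂ := if k ∣ m + 1 then c (1 / k) ((m + 1) / k) else 0

lemma hasSum_Phi (a : ℝ) {x : ℂ} (hx : ‖x‖ < 1) : HasSum (fun j => c a j * x ^ j) (Phi a x) := by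
  have h := Complex.hasSum_taylorSeries_on_ball (Phi_diff a) (z := x) (by simpa using hx)
  convert! h using 2 with j
  unfold c
  simp only [sub_zero, smul_eq_mul]
  field_simp

lemma c_zero (a : ℝ) : c a 0 = 1 := by simp [c, Phi_zero]

lemma hasSum_F {k : ℕ} (hk : 0 < k) {z : ℂ} (hz : 1 < ‖z‖) :
    HasSum (fun m => B k m / z ^ m) (F k z - z) := by
  have hz0 := ne_zero_of hz
  have h1 := (hasSum_Phi (1 / k) (norm_inv_pow hk hz)).mul_left z
  have h2 : HasSum (fun j => z * (c (1 / k) (j + 1) * (z ^ k)⁻¹ ^ (j + 1))) (F k z - z) := by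
    have h3 := (hasSum_nat_add_iff' 1).mpr h1
    simpa [c_zero, F] using h3
  have hinj : Function.Injective (fun j : ℕ => k * (j + 1) - 1) := by
    intro i j hij
    simp only at hij
    have h3 : 0 < k * (i + 1) := by positivity
    have h4 : 0 < k * (j + 1) := by positivity
    have h5 : k * (i + 1) = k * (j + 1) := by omega
    have h6 := Nat.eq_of_mul_eq_mul_left hk h5
    omega
  rw [← hinj.hasSum_iff]
  · convert! h2 using 2 with j
    simp only [Function.comp_apply]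
    have h4 : 0 < k * (j + 1) := by positivity
    have h5 : k * (j + 1) - 1 + 1 = k * (j + 1) := by omega
    unfold B
    rw [h5, if_pos (dvd_mul_right _ _), Nat.mul_div_cancel_left _ hk]
    have h6 : z ^ (k * (j + 1)) = z ^ (k * (j + 1) - 1) * z := by
      rw [← pow_succ, h5]
    rw [inv_pow, ← pow_mul, h6]
    field_simp
  · intro m hm
    have : ¬ k ∣ m + 1 := by
      rintro ⟨j, hj⟩
      apply hm
      have hj0 : j ≠ 0 := by
        rintro rfl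
        simp at hj
      obtain ⟨i, rfl⟩ := Nat.exists_eq_succ_of_ne_zero hj0
      exact ⟨i, by simp only [Nat.succ_eq_add_one] at hj; simp only; omega⟩
    simp [B, this]

lemma isSigma_F {k : ℕ} (hk : 0 < k) : IsSigma (F k) (B k) :=
  ⟨F_diff hk, F_inj hk, fun _ hz => hasSum_F hk hz⟩

lemma B_val {k : ℕ} (hk : 0 < k) : B k (3 * k - 1) = P3 (1 / k) 0 / 6 := by
  have h1 : 3 * k - 1 + 1 = 3 * k := by omega
  unfold B
  rw [h1, if_pos (dvd_mul_left _ _), Nat.mul_div_cancel _ hk]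
  unfold c
  rw [it3]
  norm_num [Nat.factorial]

lemma B_large {k : ℕ} (hk : 17 ≤ k) : 2 / (3 * (k : ℝ)) < ‖B k (3 * k - 1)‖ := by
  have hk0 : 0 < k := by omega
  have hkR : (17 : ℝ) ≤ k := by exact_mod_cast hk
  refine lt_of_lt_of_le ?_ (Complex.abs_re_le_norm _)
  rw [B_val hk0, P3_re, abs_neg]
  refine lt_of_lt_of_le ?_ (le_abs_self _)
  have hk' : (0 : ℝ) < k := by linarith
  set t : ℝ := 1 / k with ht
  have ht0 : 0 < t := by positivity
  have ht1 : t ≤ 1 / 17 := by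
    rw [ht]
    exact one_div_le_one_div_of_le (by norm_num) hkR
  have e : 2 / (3 * (k : ℝ)) = 2 / 3 * t := by rw [ht]; field_simp
  rw [e]
  nlinarith [mul_pos ht0 ht0, mul_pos (mul_pos ht0 ht0) ht0]

/-- **The bound `|b_n| ≤ 2 / (n + 1)` fails for even `n`.** For every odd `k ≥ 17` the even index
`n = 3 k - 1` admits a function `f(z) = z + ∑ b_m z^(-m)` of the class `Σ` with
`|b_n| > 2 / (n + 1)`. -/
theorem result : ∀ k : ℕ, Odd k → 17 ≤ k →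
    Even (3 * k - 1) ∧ 4 ≤ 3 * k - 1 ∧
      ∃ (f : ℂ → ℂ) (b : ℕ → ℂ), IsSigma f b ∧
        2 / (((3 * k - 1 : ℕ) : ℝ) + 1) < ‖b (3 * k - 1)‖ := by
  intro k hodd hk
  obtain ⟨r, hr⟩ := hodd
  refine ⟨⟨3 * r + 1, by omega⟩, by omega, F k, B k, isSigma_F (by omega), ?_⟩
  have e : (((3 * k - 1 : ℕ) : ℝ) + 1) = 3 * (k : ℝ) := by
    have h1 : ((3 * k - 1 + 1 : ℕ) : ℝ) = ((3 * k : ℕ) : ℝ) := by
      congr 1
      omega
    push_cast at h1
    exact h1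
  rw [e]
  exact B_large hk

end Pool.Agent.Results.MP_757d88_an.EvenCoefficients
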